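import Pool.Agent.N513.CE.Stm2

/-!
# CE/LB1: labels for `G ⧸ K` (helper78, for helper513)
-/

set_option autoImplicit false

namespace Pool.Agent.N78.CE

open Pool.Agent.H21R2 (IsSofic)
open Pool.Agent.W661.RC (HasT)
open Pool.Agent.N303.KS (ct ct_mono ct_le_add ct_perm ct_split ct_univ ct_nonneg ct_false)
open Pool.Agent.N513.CE (Apx ThmAA S_ODD Semi S_LB1 OddE S_OCL)

theorem apx_mono {P : Type} [Group P] {A A' B B' : Finset P} {δ δ' : ℝ} {V Q : Type} [Fintype V]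
    [Group Q] {σ : P → Equiv.Perm V} {f : V → P → Q} {Bad : V → Prop} (hA : A ⊆ A') (hB : B ⊆ B')
    (hδ : δ' ≤ δ) (h : Apx A' B' δ' σ f Bad) : Apx A B δ σ f Bad := by
  refine ⟨h.1.trans (mul_le_mul_of_nonneg_right hδ (Nat.cast_nonneg _)), fun x hx => ?_⟩
  obtain ⟨h1, h2, h3, h4⟩ := h.2 x hx
  exact ⟨fun l hl l' hl' hll => h1 l (hA hl) l' (hA hl') (hA hll), fun l hl => h2 l (hA hl),
    fun g hg l hl hgl => h3 g (hB hg) l (hA hl) (hA hgl), fun g hg h' hh => h4 g (hB hg) h' (hB hh)⟩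

theorem odd_fin {P : Type} [Group P] (C : Set P) (T : Finset P) (h : ∀ l ∈ T, OddE l C) (ε : ℝ)
    (hε : 0 < ε) : ∃ (A B : Finset P) (δ : ℝ), 0 < δ ∧ (∀ x ∈ A, x ∈ C) ∧
      ∀ (A' B' : Finset P) (δ' : ℝ), A ⊆ A' → B ⊆ B' → δ' ≤ δ →
        ∀ (V Q : Type) [Fintype V] [Group Q] [Finite Q] (σ : P → Equiv.Perm V) (f : V → P → Q)
          (Bad : V → Prop), Apx A' B' δ' σ f Bad →
          ∀ l ∈ T, ct (fun x => Even (orderOf (f x l))) ≤ ε * Fintype.card V := by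
  classical
  induction T using Finset.induction_on with
  | empty =>
    exact ⟨∅, ∅, 1, one_pos, fun x hx => absurd hx (Finset.notMem_empty _),
      fun A' B' δ' _ _ _ V Q _ _ _ σ f Bad _ l hl => absurd hl (Finset.notMem_empty _)⟩
  | insert a T ha ih =>
    obtain ⟨A1, B1, δ1, h1, hC1, hh1⟩ := ih fun l hl => h l (Finset.mem_insert_of_mem hl)
    obtain ⟨A2, B2, δ2, h2, hC2, hh2⟩ := h a (Finset.mem_insert_self _ _) ε hε
    refine ⟨A1 ∪ A2, B1 ∪ B2, min δ1 δ2, lt_min h1 h2, ?_, ?_⟩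
    · intro x hx
      rcases Finset.mem_union.1 hx with hx | hx
      · exact hC1 x hx
      · exact hC2 x hx
    · intro A' B' δ' hA hB hδ V Q _ _ _ σ f Bad hap l hl
      rcases Finset.mem_insert.1 hl with rfl | hl
      · exact hh2 A' B' (Finset.union_subset_right hA) (Finset.union_subset_right hB) V Q σ f Bad
          (apx_mono (Finset.Subset.refl _) (Finset.Subset.refl _)
            (hδ.trans (min_le_right _ _)) hap)
      · exact hh1 A' B' δ' (Finset.union_subset_left hA) (Finset.union_subset_left hB)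
          (hδ.trans (min_le_left _ _)) V Q σ f Bad hap l hl

theorem odd_part (Q : Type) [Group Q] [Finite Q] :
    ∃ e : ℕ, Odd e ∧ ∀ q : Q, ¬ Even (orderOf q) → q ^ e = 1 := by
  obtain ⟨v, e, he, h⟩ := Nat.exists_eq_two_pow_mul_odd (n := Nat.card Q) Nat.card_pos.ne'
  refine ⟨e, he, fun q hq => ?_⟩
  rw [← orderOf_dvd_iff_pow_eq_one]
  have h1 : orderOf q ∣ 2 ^ v * e := h ▸ orderOf_dvd_natCard q
  refine Nat.Coprime.dvd_of_dvd_mul_left ?_ h1
  exact (Nat.coprime_two_right.2 (Nat.not_even_iff_odd.1 hq)).pow_right v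

section

variable {P D L G : Type} [Group P] [Group D] [AddCommGroup L] [Group G] (s : L → P)

/-- `s` as a homomorphism -/
def sH (hs : ∀ a b, s (a + b) = s a * s b) : Multiplicative L →* P :=
  MonoidHom.mk' (fun a => s a.toAdd) fun _ _ => hs _ _

theorem s_zero (hs : ∀ a b, s (a + b) = s a * s b) : s 0 = 1 := map_one (sH s hs)

theorem s_neg (hs : ∀ a b, s (a + b) = s a * s b) (a : L) : s (-a) = (s a)⁻¹ :=
  map_inv (sH s hs) (Multiplicative.ofAdd a)

/-- the subgroup `s L` -/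
def Cs (hs : ∀ a b, s (a + b) = s a * s b) : Subgroup P := (sH s hs).range

theorem mem_Cs (hs : ∀ a b, s (a + b) = s a * s b) (x : P) : x ∈ Cs s hs ↔ ∃ a, s a = x :=
  Iff.rfl

variable (j : D →* P) (ρ : D →* AddMonoid.End L) (i : G →* D)

theorem rho_mul (d d' : D) (l : L) : ρ (d * d') l = ρ d (ρ d' l) := by
  rw [map_mul]; rfl

theorem rho_one (l : L) : ρ 1 l = l := by
  rw [map_one]; rfl

theorem odd_K (hO : S_OCL) (hodd : S_ODD) (hs : ∀ a b, s (a + b) = s a * s b)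
    (hj : ∀ d l, j d * s l * (j d)⁻¹ = s (ρ d l)) (S : Finset G) (w : L)
    (hS : ∀ k ∈ S, ∃ (a g : D) (m' : L), ρ a (ρ (i k) w - w) = m' ∧
      ρ a m' = -((ρ (i k) w - w) + m') ∧ ρ g (ρ (i k) w - w) = (2 : ℤ) • (ρ (i k) w - w) ∧
      ρ g ((2 : ℤ) • m') = m') :
    (∀ k ∈ Subgroup.closure (S : Set G), OddE (s (ρ (i k) w - w)) (Cs s hs : Set P)) ∧
      ∀ (l : L) (d : D), OddE (s l) (Cs s hs : Set P) → OddE (s (ρ d l)) (Cs s hs : Set P) := by
  have hc : ∀ l : L, s l ∈ Cs s hs := fun l => ⟨l, rfl⟩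
  obtain ⟨o1, o2, o3, o4⟩ := hO P (Cs s hs) (by
    rintro _ ⟨a, rfl⟩ _ ⟨b, rfl⟩
    change s a.toAdd * s b.toAdd = s b.toAdd * s a.toAdd
    rw [← hs, ← hs, add_comm])
  have o4' : ∀ (l : L) (d : D), OddE (s l) (Cs s hs : Set P) →
      OddE (s (ρ d l)) (Cs s hs : Set P) := by
    intro l d h
    rw [← hj]
    exact o4 _ (hc l) _ (by rw [hj]; exact hc _) h
  refine ⟨fun k hk => ?_, o4'⟩
  induction hk using Subgroup.closure_induction with
  | mem k hk =>
    obtain ⟨a, g, m', h1, h2, h3, h4⟩ := hS k hk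
    intro ε hε
    have two : ∀ l : L, s ((2 : ℤ) • l) = s l ^ 2 := fun l => by rw [two_zsmul, hs, sq]
    obtain ⟨A, B, δ, hδ, hA, h⟩ := hodd P (s (ρ (i k) w - w)) (s m') (j a) (j g)
      (by rw [hj, h1]) (by rw [hj, h2, s_neg s hs, hs]) (by rw [hj, h3, two])
      (by rw [← two, hj, h4]) (by rw [← hs, ← hs, add_comm]) ε hε
    refine ⟨A, B, δ, hδ, fun x hx => ?_, h⟩
    have h5 : Subgroup.closure ({s (ρ (i k) w - w), s m'} : Set P) ≤ Cs s hs := by
      rw [Subgroup.closure_le]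
      rintro y (rfl | rfl)
      · exact hc _
      · exact hc _
    exact h5 (hA x hx)
  | one =>
    rw [map_one, rho_one, sub_self, s_zero s hs]
    exact o1
  | mul k k' _ _ hk hk' =>
    have h1 : ρ (i (k * k')) w - w = ρ (i k) (ρ (i k') w - w) + (ρ (i k) w - w) := by
      rw [map_mul, rho_mul, map_sub]
      abel
    rw [h1, hs]
    exact o2 _ (hc _) _ (hc _) (o4' _ _ hk') hk
  | inv k _ hk =>
    have h1 : ρ (i k⁻¹) w - w = -(ρ (i k⁻¹) (ρ (i k) w - w)) := by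
      rw [map_sub, ← rho_mul, ← map_mul, inv_mul_cancel, map_one, rho_one]
      abel
    rw [h1, s_neg s hs]
    exact o3 _ (hc _) (o4' _ _ hk)

end

theorem t_LB1 (hO : S_OCL) : S_LB1 := by
  classical
  intro hAA hodd P D L G _ _ _ _ N j s ρ i K S w c hN hT hsof hinj hs hcen hj hK hc hcc hc0 hS hy
  subst hK
  have s0 : s 0 = 1 := s_zero s hs
  obtain ⟨hoK, hoD⟩ := odd_K s j ρ i hO hodd hs hj S w hS
  generalize Subgroup.closure (S : Set G) = K at hoK hy
  intro F E ε hε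
  -- representatives
  obtain ⟨r, hr⟩ : ∃ r : G ⧸ K → G, ∀ u, (QuotientGroup.mk (r u) : G ⧸ K) = u :=
    ⟨Quotient.out, fun u => QuotientGroup.out_eq' u⟩
  obtain ⟨W, hW⟩ : ∃ W : G ⧸ K → L, ∀ u, W u = ρ (i (r u)) w := ⟨_, fun _ => rfl⟩
  obtain ⟨t, ht⟩ : ∃ t : G → G ⧸ K → L, ∀ g u, t g u =
      ρ (i (r (g⁻¹ • u))) (ρ (i ((r (g⁻¹ • u))⁻¹ * (g⁻¹ * r u))) w - w) := ⟨_, fun _ _ => rfl⟩
  have f1 : ∀ g u, W u = ρ (i g) (W (g⁻¹ • u) + t g u) := by
    intro g u
    rw [hW, hW, ht, map_sub, add_sub_cancel, ← rho_mul, ← rho_mul, ← map_mul, ← map_mul]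
    congr 3
    group
  have f2 : ∀ g u, OddE (s (t g u)) (Cs s hs : Set P) := by
    intro g u
    rw [ht]
    refine hoD _ _ (hoK _ ?_)
    rw [← QuotientGroup.eq, hr]
    conv_lhs => rw [← hr u]
    rfl
  have f3 : ∀ u u' : G ⧸ K, ∃ y : D, u ≠ u' → ρ y (W u - W u') = W u - W u' + c := by
    intro u u'
    by_cases huu : u = u'
    · exact ⟨1, fun h => absurd huu h⟩
    · have h1 : (r u')⁻¹ * r u ∉ K := by
        intro h
        rw [← QuotientGroup.eq, hr, hr] at h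
        exact huu h.symm
      obtain ⟨y0, hy0⟩ := hy _ h1
      refine ⟨i (r u') * y0 * (i (r u'))⁻¹, fun _ => ?_⟩
      have h2 : W u - W u' = ρ (i (r u')) (ρ (i ((r u')⁻¹ * r u)) w - w) := by
        rw [hW, hW, map_sub, ← rho_mul, ← map_mul, mul_inv_cancel_left]
      rw [h2, rho_mul, rho_mul, ← rho_mul ρ (i (r u'))⁻¹, inv_mul_cancel, rho_one, hy0, map_add, hc]
  choose y hyy using f3
  -- the finite sets
  obtain ⟨A0, B0, δ0, hδ0, hA0, hodd'⟩ := odd_fin (Cs s hs : Set P)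
    ((F ×ˢ E).image fun p => s (t p.1 p.2)) (by
      intro l hl
      obtain ⟨p, _, rfl⟩ := Finset.mem_image.1 hl
      exact f2 _ _) (ε / 2) (by positivity)
  obtain ⟨M, hM0, hMc, hMW, hMt, hMWt, hMb, hMbc⟩ : ∃ M : Finset L, 0 ∈ M ∧ c ∈ M ∧
      (∀ u ∈ E, W u ∈ M) ∧ (∀ g ∈ F, ∀ u ∈ E, t g u ∈ M) ∧
      (∀ g ∈ F, ∀ u ∈ E, W (g⁻¹ • u) + t g u ∈ M) ∧ (∀ u ∈ E, ∀ u' ∈ E, W u - W u' ∈ M) ∧
      (∀ u ∈ E, ∀ u' ∈ E, W u - W u' + c ∈ M) := by
    refine ⟨insert 0 (insert c (E.image W ∪ ((F ×ˢ E).image (fun p => t p.1 p.2) ∪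
      ((F ×ˢ E).image (fun p => W (p.1⁻¹ • p.2) + t p.1 p.2) ∪
      ((E ×ˢ E).image (fun p => W p.1 - W p.2) ∪
        (E ×ˢ E).image (fun p => W p.1 - W p.2 + c)))))), ?_, ?_, ?_, ?_, ?_, ?_, ?_⟩
    all_goals simp only [Finset.mem_insert, Finset.mem_union, Finset.mem_image, Finset.mem_product]
    · exact Or.inl trivial
    · exact Or.inr (Or.inl trivial)
    · intro u hu
      exact Or.inr (Or.inr (Or.inl ⟨u, hu, rfl⟩))
    · intro g hg u hu
      exact Or.inr (Or.inr (Or.inr (Or.inl ⟨(g, u), ⟨hg, hu⟩, rfl⟩)))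
    · intro g hg u hu
      exact Or.inr (Or.inr (Or.inr (Or.inr (Or.inl ⟨(g, u), ⟨hg, hu⟩, rfl⟩))))
    · intro u hu u' hu'
      exact Or.inr (Or.inr (Or.inr (Or.inr (Or.inr (Or.inl ⟨(u, u'), ⟨hu, hu'⟩, rfl⟩)))))
    · intro u hu u' hu'
      exact Or.inr (Or.inr (Or.inr (Or.inr (Or.inr (Or.inr ⟨(u, u'), ⟨hu, hu'⟩, rfl⟩)))))
  obtain ⟨B1, hB1, hBF, hBy⟩ : ∃ B1 : Finset P, 1 ∈ B1 ∧ (∀ g ∈ F, j (i g) ∈ B1) ∧
      ∀ u ∈ E, ∀ u' ∈ E, j (y u u') ∈ B1 := by
    refine ⟨insert 1 (F.image (fun g => j (i g)) ∪ (E ×ˢ E).image fun p => j (y p.1 p.2)),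
      ?_, ?_, ?_⟩
    all_goals simp only [Finset.mem_insert, Finset.mem_union, Finset.mem_image, Finset.mem_product]
    · exact Or.inl trivial
    · intro g hg
      exact Or.inr (Or.inl ⟨g, hg, rfl⟩)
    · intro u hu u' hu'
      exact Or.inr (Or.inr ⟨(u, u'), ⟨hu, hu'⟩, rfl⟩)
  obtain ⟨δ, hδ, hδ1, hδ2, hδ3⟩ : ∃ δ : ℝ, 0 < δ ∧ δ ≤ δ0 ∧ δ ≤ ε / 2 ∧ δ ≤ 1 / 8 :=
    ⟨min δ0 (min (ε / 2) (1 / 8)), lt_min hδ0 (lt_min (by positivity) (by norm_num)),
      min_le_left _ _, (min_le_right _ _).trans (min_le_left _ _),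
      (min_le_right _ _).trans (min_le_right _ _)⟩
  obtain ⟨V, Q, iV, neV, gQ, fQ, σ, f, Bad, hap⟩ := hAA P N hN hsof hT (A0 ∪ M.image s) (B0 ∪ B1)
    (by
      intro l hl
      rcases Finset.mem_union.1 hl with hl | hl
      · obtain ⟨a, rfl⟩ := (mem_Cs s hs l).1 (hA0 l hl)
        exact hcen a
      · obtain ⟨a, _, rfl⟩ := Finset.mem_image.1 hl
        exact hcen a) δ hδ
  have hod := hodd' _ _ δ Finset.subset_union_left Finset.subset_union_left hδ1 V Q σ f Bad hap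
  obtain ⟨e, he, hpow⟩ := odd_part Q
  have hV : (0 : ℝ) ≤ Fintype.card V := Nat.cast_nonneg _
  have hsM : ∀ l ∈ M, s l ∈ A0 ∪ M.image s := fun l hl =>
    Finset.mem_union_right _ (Finset.mem_image_of_mem s hl)
  have hbB : ∀ b ∈ B1, b ∈ B0 ∪ B1 := fun b hb => Finset.mem_union_right _ hb
  have ga : ∀ x, ¬ Bad x → ∀ l ∈ M, ∀ l' ∈ M, l + l' ∈ M →
      f x (s (l + l')) = f x (s l) * f x (s l') := by
    intro x hx l hl l' hl' hll
    rw [hs]
    exact (hap.2 x hx).1 _ (hsM l hl) _ (hsM l' hl') (by rw [← hs]; exact hsM _ hll)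
  have gcomm : ∀ x, ¬ Bad x → ∀ l ∈ M, ∀ l' ∈ M, l + l' ∈ M →
      Commute (f x (s l)) (f x (s l')) := by
    intro x hx l hl l' hl' hll
    have h1 := ga x hx l hl l' hl' hll
    have h2 := ga x hx l' hl' l hl (by rwa [add_comm])
    rw [add_comm l' l, h1] at h2
    exact h2
  have gc : ∀ x, ¬ Bad x → ∀ d, j d ∈ B1 → ∀ l ∈ M, ρ d l ∈ M →
      f (σ (j d) x) (s (ρ d l)) = f x (s l) := by
    intro x hx d hd l hl hdl
    rw [← hj]
    exact (hap.2 x hx).2.2.1 _ (hbB _ hd) _ (hsM l hl) (by rw [hj]; exact hsM _ hdl)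
  have gd : ∀ x, ¬ Bad x → ∀ a ∈ B1, ∀ b ∈ B1, σ (a * b) x = σ a (σ b x) :=
    fun x hx a ha b hb => (hap.2 x hx).2.2.2 a (hbB a ha) b (hbB b hb)
  have g1 : ∀ x, ¬ Bad x → σ 1 x = x := by
    intro x hx
    have h1 := gd x hx 1 hB1 1 hB1
    rw [mul_one] at h1
    exact ((σ 1).injective h1).symm
  refine ⟨V, Q, iV, neV, fQ, fun g => if g = 1 then 1 else σ (j (i g)),
    fun x u => (f x (s (W u))) ^ e, if_pos rfl, ?_, ?_, ?_⟩
  · -- multiplicativity
    intro g hg h hh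
    refine (ct_mono (q := Bad) ?_).trans (hap.1.trans
      (mul_le_mul_of_nonneg_right (by linarith) hV))
    intro x hx
    by_contra hb
    apply hx
    beta_reduce
    by_cases hg1 : g = 1
    · subst hg1
      simp
    by_cases hh1 : h = 1
    · subst hh1
      simp
    by_cases hgh : g * h = 1
    · rw [if_pos hgh, if_neg hg1, if_neg hh1, ← gd x hb _ (hBF g hg) _ (hBF h hh), ← map_mul,
        ← map_mul, hgh, map_one, map_one, g1 x hb]
      rfl
    · rw [if_neg hgh, if_neg hg1, if_neg hh1, map_mul, map_mul]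
      exact gd x hb _ (hBF g hg) _ (hBF h hh)
  · -- equivariance
    intro g hg u hu hgu
    have h1 : ct (fun x => (f ((if g = 1 then (1 : Equiv.Perm V) else σ (j (i g))) x) (s (W u))) ^ e
        ≠ (f x (s (W (g⁻¹ • u)))) ^ e) ≤ ct Bad + ct fun x => Even (orderOf (f x (s (t g u)))) := by
      refine ct_le_add fun x hx => ?_
      by_contra hcon
      rw [not_or] at hcon
      obtain ⟨hb, ho⟩ := hcon
      apply hx
      by_cases hg1 : g = 1
      · subst hg1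
        simp
      · rw [if_neg hg1]
        conv_lhs => rw [f1 g u]
        rw [gc x hb _ (hBF g hg) _ (hMWt g hg u hu) (by rw [← f1]; exact hMW u hu),
          ga x hb _ (hMW _ hgu) _ (hMt g hg u hu) (hMWt g hg u hu),
          (gcomm x hb _ (hMW _ hgu) _ (hMt g hg u hu) (hMWt g hg u hu)).mul_pow, hpow _ ho, mul_one]
    have h2 := hod (s (t g u)) (Finset.mem_image.2 ⟨(g, u), Finset.mem_product.2 ⟨hg, hu⟩, rfl⟩)
    have h3 := hap.1
    have h4 : δ * Fintype.card V ≤ ε / 2 * Fintype.card V := mul_le_mul_of_nonneg_right hδ2 hV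
    refine h1.trans ?_
    linarith
  · -- separation
    intro u hu u' hu' huu
    have hb := hMb u hu u' hu'
    have h1 : ct (fun x => (f x (s (W u))) ^ e = (f x (s (W u'))) ^ e) ≤
        ct Bad + ct fun x => (f x (s (W u - W u'))) ^ e = 1 := by
      refine ct_le_add fun x hx => ?_
      by_contra hcon
      rw [not_or] at hcon
      obtain ⟨hbx, ho⟩ := hcon
      apply ho
      have h2 : W u - W u' + W u' ∈ M := by rw [sub_add_cancel]; exact hMW u hu
      have h3 : f x (s (W u)) = f x (s (W u - W u')) * f x (s (W u')) := by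
        rw [← ga x hbx _ hb _ (hMW u' hu') h2, sub_add_cancel]
      have hx' : (f x (s (W u))) ^ e = (f x (s (W u'))) ^ e := hx
      rw [h3, (gcomm x hbx _ hb _ (hMW u' hu') h2).mul_pow] at hx'
      exact mul_eq_right.1 hx'
    have h2 : ct (fun x => (f x (s (W u - W u'))) ^ e = 1) ≤
        ct Bad + (ct Bad + ct fun x => ¬ (f x (s (W u - W u'))) ^ e = 1) := by
      have h3 : ct (fun x => (f x (s (W u - W u'))) ^ e = 1) ≤
          ct Bad + ct fun x => (Bad (σ (j (y u u')) x) ∨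
            ¬ (f (σ (j (y u u')) x) (s (W u - W u'))) ^ e = 1) := by
        refine ct_le_add fun x hx => ?_
        by_contra hcon
        rw [not_or, not_or, not_not] at hcon
        obtain ⟨hbx, hby, ho⟩ := hcon
        have hx' : (f x (s (W u - W u'))) ^ e = 1 := hx
        have hbc := hMbc u hu u' hu'
        rw [← gc x hbx (y u u') (hBy u hu u' hu') _ hb (by rw [hyy u u' huu]; exact hbc),
          hyy u u' huu, ga _ hby _ hb _ hMc hbc, (gcomm _ hby _ hb _ hMc hbc).mul_pow, ho,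
          one_mul] at hx'
        have h5 : f (σ (j (y u u')) x) (s 0) = 1 := by
          have h6 := ga _ hby _ hM0 _ hM0 (by rw [add_zero]; exact hM0)
          rw [add_zero] at h6
          exact left_eq_mul.1 h6
        have h7 : f (σ (j (y u u')) x) (s c) * f (σ (j (y u u')) x) (s c) = 1 := by
          rw [← ga _ hby _ hMc _ hMc (by rw [hcc]; exact hM0), hcc, h5]
        obtain ⟨n, rfl⟩ := he
        rw [pow_succ, pow_mul, sq, h7, one_pow, one_mul] at hx'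
        refine (hap.2 _ hby).2.1 (s c) (hsM c hMc) ?_ hx'
        intro h8
        rw [← s0] at h8
        exact hc0 (hinj h8)
      have h4 : ct (fun x => (Bad (σ (j (y u u')) x) ∨
            ¬ (f (σ (j (y u u')) x) (s (W u - W u'))) ^ e = 1)) ≤
          ct Bad + ct fun x => ¬ (f x (s (W u - W u'))) ^ e = 1 := by
        rw [ct_perm (fun x => Bad x ∨ ¬ (f x (s (W u - W u'))) ^ e = 1) (σ (j (y u u')))]
        exact ct_le_add fun x hx => hx
      linarith
    have h3 := ct_split (fun _ : V => True) fun x => (f x (s (W u - W u'))) ^ e = 1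
    simp only [true_and] at h3
    rw [ct_univ] at h3
    have h4 := hap.1
    have h5 : δ * Fintype.card V ≤ 1 / 8 * Fintype.card V := mul_le_mul_of_nonneg_right hδ3 hV
    refine h1.trans ?_
    linarith

end Pool.Agent.N78.CE
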