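import Mathlib

/-!
Squares in the standard Cayley graph of a right-angled Artin group.
-/

set_option autoImplicit false

namespace Pool.Agent.N78.CE

variable {n : ℕ} (Γ : SimpleGraph (Fin n))

/-- the relators -/
def rel : Set (FreeGroup (Fin n)) :=
  {r | ∃ i j : Fin n, Γ.Adj i j ∧
    r = FreeGroup.of i * FreeGroup.of j * (FreeGroup.of i)⁻¹ * (FreeGroup.of j)⁻¹}

/-- the group -/
abbrev RA : Type := PresentedGroup (rel Γ)

variable {Γ}

/-- homomorphisms out of the group -/
def lft {K : Type} [Group K] (f : Fin n → K) (h : ∀ i j, Γ.Adj i j → f i * f j = f j * f i) :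
    RA Γ →* K :=
  PresentedGroup.toGroup (f := f) (rels := rel Γ) (by
    rintro r ⟨i, j, hij, rfl⟩
    simp only [map_mul, map_inv, FreeGroup.lift_apply_of]
    rw [h i j hij]
    simp)

@[simp] theorem lft_of {K : Type} [Group K] (f : Fin n → K)
    (h : ∀ i j, Γ.Adj i j → f i * f j = f j * f i) (i : Fin n) :
    lft f h (PresentedGroup.of i) = f i := by
  unfold lft
  exact PresentedGroup.toGroup.of _

theorem comm_of_adj {i j : Fin n} (h : Γ.Adj i j) :
    (PresentedGroup.of i : RA Γ) * PresentedGroup.of j = PresentedGroup.of j * PresentedGroup.of i := by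
  have h1 : PresentedGroup.mk (rel Γ)
      (FreeGroup.of i * FreeGroup.of j * (FreeGroup.of i)⁻¹ * (FreeGroup.of j)⁻¹) = 1 :=
    PresentedGroup.one_of_mem ⟨i, j, h, rfl⟩
  rw [map_mul, map_mul, map_mul, map_inv, map_inv, mul_inv_eq_one, mul_inv_eq_iff_eq_mul] at h1
  exact h1

/-- non adjacent distinct generators do not commute -/
theorem adj_of_comm {i j : Fin n} (hij : i ≠ j)
    (h : (PresentedGroup.of i : RA Γ) * PresentedGroup.of j =
      PresentedGroup.of j * PresentedGroup.of i) : Γ.Adj i j := by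
  classical
  by_contra hn
  let a : Equiv.Perm (Fin 3) := Equiv.swap 0 1
  let b : Equiv.Perm (Fin 3) := Equiv.swap 1 2
  let f : Fin n → Equiv.Perm (Fin 3) := fun k => if k = i then a else if k = j then b else 1
  have hf : ∀ k l, Γ.Adj k l → f k * f l = f l * f k := by
    intro k l hkl
    by_cases h1 : k = i
    · subst h1
      have h2 : l ≠ k := fun e => Γ.loopless.irrefl k (e ▸ hkl)
      have h3 : l ≠ j := fun e => hn (e ▸ hkl)
      simp [f, h2, h3]
    · by_cases h2 : k = j
      · subst h2
        have h3 : l ≠ k := fun e => Γ.loopless.irrefl k (e ▸ hkl)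
        have h4 : l ≠ i := fun e => hn (e ▸ hkl.symm)
        simp [f, h3, h4]
      · simp [f, h1, h2]
  have := congrArg (lft f hf) h
  rw [map_mul, map_mul, lft_of, lft_of] at this
  simp only [f, if_true, if_neg hij.symm] at this
  revert this
  decide

/-- the exponent sum map -/
noncomputable def ab : RA Γ →* Multiplicative (Fin n → ℤ) :=
  lft (fun i => Multiplicative.ofAdd (Pi.single i 1)) (fun _ _ _ => mul_comm _ _)

/-- the exponent sums -/
noncomputable def es (g : RA Γ) : Fin n → ℤ := Multiplicative.toAdd (ab g)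

theorem es_mul (g h : RA Γ) : es (g * h) = es g + es h := by
  unfold es
  rw [map_mul]
  rfl

theorem es_of (i : Fin n) : es (PresentedGroup.of i : RA Γ) = Pi.single i 1 := by
  unfold es ab
  rw [lft_of]
  rfl

theorem es_inv (g : RA Γ) : es g⁻¹ = - es g := by
  unfold es
  rw [map_inv]
  rfl

/-- signed generators -/
def sg (i : Fin n) (b : Bool) : RA Γ := if b then PresentedGroup.of i else (PresentedGroup.of i)⁻¹

/-- sign -/
def sn (b : Bool) : ℤ := if b then 1 else -1

theorem es_sg (i : Fin n) (b : Bool) : es (sg i b : RA Γ) = Pi.single i (sn b) := by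
  cases b
  · simp only [sg, sn, Bool.false_eq_true, if_false, es_inv, es_of]
    rw [← Pi.single_neg]
  · simp only [sg, sn, if_true, es_of]

theorem sn_ne (b : Bool) : sn b ≠ 0 := by cases b <;> simp [sn]

theorem sn_inj {b c : Bool} (h : sn b = sn c) : b = c := by
  cases b <;> cases c <;> simp_all [sn]

/-- `i` is the label of the edge from `g` to `h` -/
def Lb (g h : RA Γ) (i : Fin n) : Prop := h = g * PresentedGroup.of i ∨ g = h * PresentedGroup.of i

theorem Lb.ex {g h : RA Γ} {i : Fin n} (H : Lb g h i) : ∃ b, h = g * sg i b := by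
  rcases H with H | H
  · exact ⟨true, by simp [sg, H]⟩
  · exact ⟨false, by simp [sg, H]⟩

theorem Lb.symm {g h : RA Γ} {i : Fin n} (H : Lb g h i) : Lb h g i := Or.symm H

theorem Lb.of_sg (g : RA Γ) (i : Fin n) (b : Bool) : Lb g (g * sg i b) i := by
  cases b
  · right; simp [sg]
  · left; simp [sg]

theorem Lb.unique {g h : RA Γ} {i j : Fin n} (H : Lb g h i) (H' : Lb g h j) : i = j := by
  obtain ⟨b, hb⟩ := H.ex
  obtain ⟨c, hc⟩ := H'.ex
  by_contra hij
  rw [hb] at hc
  have h1 := mul_left_cancel hc
  have h2 := congrFun (congrArg es h1) i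
  rw [es_sg, es_sg, Pi.single_eq_same, Pi.single_eq_of_ne hij] at h2
  exact sn_ne b h2

/-- the labels of a square -/
theorem Lb.square {g x y v : RA Γ} {i j i' j' : Fin n} (h1 : Lb g x i) (h2 : Lb x v j)
    (h3 : Lb g y j') (h4 : Lb y v i') (hgv : g ≠ v) (hxy : x ≠ y) :
    i = i' ∧ j = j' ∧ Γ.Adj i j := by
  obtain ⟨b, rfl⟩ := h1.ex
  obtain ⟨c, rfl⟩ := h2.ex
  obtain ⟨c', rfl⟩ := h3.ex
  obtain ⟨b', hb'⟩ := h4.ex
  rw [mul_assoc, mul_assoc] at hb'
  have e := mul_left_cancel hb'
  have e1 : ∀ k, (Pi.single i (sn b) : Fin n → ℤ) k + (Pi.single j (sn c) : Fin n → ℤ) k =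
      (Pi.single j' (sn c') : Fin n → ℤ) k + (Pi.single i' (sn b') : Fin n → ℤ) k := by
    intro k
    have := congrFun (congrArg es e) k
    rw [es_mul, es_mul, es_sg, es_sg, es_sg, es_sg] at this
    exact this
  -- the first steps differ
  have hne : ¬ (i = j' ∧ b = c') := by
    rintro ⟨rfl, rfl⟩
    exact hxy rfl
  have hne2 : ¬ (i = j ∧ sn b + sn c = 0) := by
    rintro ⟨rfl, h⟩
    apply hgv
    have : c = !b := by
      revert h
      cases b <;> cases c <;> simp [sn]
    subst this
    cases b <;> simp [sg]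
  have hs : ∀ (i : Fin n) (t : ℤ) (k : Fin n), (Pi.single i t : Fin n → ℤ) k = if k = i then t else 0 :=
    fun i t k => Pi.single_apply i t k
  simp only [hs] at e1
  have ei := e1 i
  have ej := e1 j
  have ei' := e1 i'
  have ej' := e1 j'
  have hij : i ≠ j := by
    rintro rfl
    have hn0 : sn b + sn c ≠ 0 := fun h => hne2 ⟨rfl, h⟩
    simp only [if_true] at ei
    have h5 : i = j' := by
      by_contra h5
      rw [if_neg h5] at ei
      revert ei
      split_ifs <;> cases b <;> cases c <;> cases b' <;> simp [sn] at hn0 ⊢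
    subst h5
    have h6 : b ≠ c' := fun h => hne ⟨rfl, h⟩
    simp only [if_true] at ei
    revert ei
    split_ifs <;> cases b <;> cases c <;> cases b' <;> cases c' <;> simp [sn] at h6 hn0 ⊢
  simp only [if_true, if_neg hij, if_neg hij.symm] at ei ej
  have hii' : i = i' := by
    by_contra h5
    rw [if_neg h5] at ei
    by_cases h6 : i = j'
    · rw [if_pos h6] at ei
      apply hne
      refine ⟨h6, sn_inj ?_⟩
      omega
    · rw [if_neg h6] at ei
      have := sn_ne b
      omega
  subst hii'
  rw [if_neg hij.symm] at ej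
  have hjj' : j = j' := by
    by_contra h5
    rw [if_neg h5] at ej
    have := sn_ne c
    omega
  subst hjj'
  rw [if_pos rfl] at ej
  rw [if_neg hij, if_pos rfl] at ei
  have hb : b = b' := sn_inj (by omega)
  have hc : c = c' := sn_inj (by omega)
  subst hb hc
  refine ⟨rfl, rfl, adj_of_comm hij ?_⟩
  have key : ∀ (p q : RA Γ) (b c : Bool),
      (if b then p else p⁻¹) * (if c then q else q⁻¹) =
        (if c then q else q⁻¹) * (if b then p else p⁻¹) → Commute p q := by
    intro p q b c h
    cases b <;> cases c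
    · have h' : p⁻¹ * q⁻¹ = q⁻¹ * p⁻¹ := h
      exact Commute.inv_inv_iff.mp h'
    · have h' : p⁻¹ * q = q * p⁻¹ := h
      exact Commute.inv_left_iff.mp h'
    · have h' : p * q⁻¹ = q⁻¹ * p := h
      exact Commute.inv_right_iff.mp h'
    · exact h
  exact key _ _ b c e

theorem sg_comm {i j : Fin n} (h : Γ.Adj i j) (b c : Bool) :
    (sg i b : RA Γ) * sg j c = sg j c * sg i b := by
  have h1 : Commute (PresentedGroup.of i : RA Γ) (PresentedGroup.of j) := comm_of_adj h
  cases b <;> cases c
  · exact h1.inv_inv.eq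
  · exact h1.inv_left.eq
  · exact h1.inv_right.eq
  · exact h1.eq

end Pool.Agent.N78.CE
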