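import Pool.Agent.N78.CE.Sys
import Pool.Agent.N78.CE.Raag

/-!
The Cayley graph of the group of the square system has no convex embedding into the standard Cayley
graph of a right-angled Artin group of finite rank.
-/

set_option autoImplicit false

namespace Pool.Agent.N78.CE

open Pool.Agent.W387 SqSys

section general

variable {A : Type} {S : SqSys A}

/-- the square spanned by a diamond in the Cayley graph -/
theorem sq_of_diamond {u x y v : S.Grp} {a a' b b' : A} (hx : x = S.gn a * u)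
    (hy : y = S.gn b * u) (h : v = S.gn a' * x) (h' : v = S.gn b' * y) (huv : u ≠ v)
    (hxy : x ≠ y) : S.sq a' b' = some (a, b) := by
  subst hx hy
  have ua : dd u (S.gn a * u) = 1 := by
    unfold dd
    rw [mul_inv_cancel_right, len_gn]
  have huv' : dd u v ≠ 0 := by
    intro h
    have := len_eq_zero h
    rw [mul_inv_eq_one] at this
    exact huv this.symm
  have h2 : dd u v = 2 := by
    have h5 := dd_gn_mul u (S.gn a * u) a'
    rw [← h, ua] at h5
    omega
  have red2 : ∀ a a' : A, v = S.gn a' * (S.gn a * u) → S.Red [a', a] := by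
    intro a a' h
    apply red_of_len
    have e : evL (S := S) [a', a] = v * u⁻¹ := by
      rw [h]
      simp [mul_assoc]
    rw [e]
    exact h2
  have hE : S.E [a', a] [b', b] := by
    apply E_of_evL_eq (red2 _ _ h) (red2 _ _ h')
    simp only [evL_cons, evL_nil, mul_one]
    have := h.symm.trans h'
    rw [← mul_assoc, ← mul_assoc] at this
    exact mul_right_cancel this
  rcases key _ _ _ _ _ rfl hE with ⟨k1, _⟩ | ⟨p, e, f, k1, k2, k3⟩
  · exfalso
    subst k1
    exact hxy (mul_left_cancel (h.symm.trans h'))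
  · have l1 := E.length k2
    simp only [List.length_cons, List.length_nil] at l1
    have l2 : p = [] := List.eq_nil_of_length_eq_zero (by omega)
    subst l2
    rw [k1, E_single k2, E_single k3]

theorem gn_inj {a b : A} (h : S.gn a = S.gn b) : a = b := by
  apply E_single (S := S)
  apply E_of_evL_eq (red_single _) (red_single _)
  simpa using h

theorem sq_nd1 {a b a' b' : A} (h : S.sq a' b' = some (a, b)) (u : S.Grp) :
    S.gn a * u ≠ S.gn b * u := by
  intro e
  have := gn_inj (mul_right_cancel e)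
  subst this
  have h2 := backs h
  rw [S.irrefl] at h2
  cases h2

theorem sq_nd2 {a b a' b' : A} (h : S.sq a' b' = some (a, b)) (u : S.Grp) :
    u ≠ S.gn a' * (S.gn a * u) := by
  intro e
  rw [← mul_assoc] at e
  have h1 : S.gn a' * S.gn a = 1 := (mul_eq_right.mp e.symm)
  have h2 : S.gn a = S.gn (S.inv a') := by
    rw [gn_inv]
    exact eq_inv_of_mul_eq_one_right h1
  have := gn_inj h2
  subst this
  have h3 := S.rot h
  rw [S.irrefl] at h3
  cases h3

theorem not_adj_of_common {u : S.Grp} {a b c : A} (h : S.gn b * u = S.gn c * (S.gn a * u)) :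
    False := by
  rw [← mul_assoc] at h
  have h1 := mul_right_cancel h
  have h2 := len_gn_mul c (S.gn a)
  rw [← h1, len_gn, len_gn] at h2
  omega

end general

/-! ### the dynamics of the automaton -/

/-- states -/
def st (d : ZMod 3) (r : ℕ → ZMod 3) : ℕ → ZMod 3
  | 0 => d
  | i + 1 => st d r i - r i

/-- the transformation -/
def T (d : ZMod 3) (r : ℕ → ZMod 3) : ℕ → ZMod 3 := fun i => r i + st d r i

/-- the states of the inverse -/
def sti (r : ℕ → ZMod 3) : ℕ → ZMod 3
  | 0 => 0
  | i + 1 => sti r i + sti r i - r i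

/-- the inverse of `T 0` -/
def Ti (r : ℕ → ZMod 3) : ℕ → ZMod 3 := fun i => r i - sti r i

theorem st_Ti (r : ℕ → ZMod 3) (i : ℕ) : st 0 (Ti r) i = sti r i := by
  induction i with
  | zero => rfl
  | succ i ih =>
    rw [st, ih, Ti, sti]
    ring

theorem T_Ti (r : ℕ → ZMod 3) : T 0 (Ti r) = r := by
  funext i
  rw [T, st_Ti, Ti]
  ring

theorem st_add (d d' : ZMod 3) (r r' : ℕ → ZMod 3) (i : ℕ) :
    st (d + d') (r + r') i = st d r i + st d' r' i := by
  induction i with
  | zero => rfl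
  | succ i ih =>
    rw [st, st, st, ih, Pi.add_apply]
    ring

theorem T_add (d d' : ZMod 3) (r r' : ℕ → ZMod 3) : T (d + d') (r + r') = T d r + T d' r' := by
  funext i
  rw [T, Pi.add_apply, Pi.add_apply, T, T, st_add]
  ring

/-- the translation vectors -/
def hh : ℕ → ℕ → ZMod 3
  | 0 => fun _ => 1
  | j + 1 => fun i => st 0 (hh j) i

theorem hh_spec (j : ℕ) : (∀ i, i < j → hh j i = 0) ∧ hh j j ≠ 0 := by
  induction j with
  | zero =>
    refine ⟨fun i hi => absurd hi (Nat.not_lt_zero _), ?_⟩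
    show (1 : ZMod 3) ≠ 0
    decide
  | succ j ih =>
    have h : ∀ i, i ≤ j → hh (j + 1) i = 0 := by
      intro i
      induction i with
      | zero => intro _; rfl
      | succ i ih2 =>
        intro hi
        show st 0 (hh j) i - hh j i = 0
        have := ih2 (by omega)
        have h2 : st 0 (hh j) i = 0 := this
        rw [h2, ih.1 i (by omega), sub_zero]
    refine ⟨fun i hi => h i (by omega), ?_⟩
    show st 0 (hh j) j - hh j j ≠ 0
    have h2 : st 0 (hh j) j = 0 := h j le_rfl
    rw [h2, zero_sub]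
    exact neg_ne_zero.mpr ih.2

/-! ### the square system -/

/-- horizontal generators -/
noncomputable def X (r : ZMod 3) : S.Grp := S.gn (Da.x r true)

/-- vertical generators -/
noncomputable def Y (r : ZMod 3) : S.Grp := S.gn (Da.y r true)

theorem sqXY (r d : ZMod 3) : S.sq (Da.x (r + d) true) (Da.y (d - r) true) =
    some (Da.y d true, Da.x r true) := by
  show some (Da.y (-(r + d) - (d - r)) true, Da.x ((d - r) - (r + d)) true) = _
  have h1 : -(r + d) - (d - r) = d := by revert r d; decide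
  have h2 : (d - r) - (r + d) = r := by revert r d; decide
  rw [h1, h2]

theorem sqXT : S.sq (Da.x 0 true) (Da.t true) = some (Da.t true, Da.x 0 true) := rfl

theorem XY (r d : ZMod 3) : X (r + d) * Y d = Y (d - r) * X r := gn_sq (sqXY r d)

/-- horizontal paths -/
noncomputable def P (u : S.Grp) (r : ℕ → ZMod 3) : ℕ → S.Grp
  | 0 => u
  | i + 1 => X (r i) * P u r i

theorem P_par (u : S.Grp) (d : ZMod 3) (r : ℕ → ZMod 3) (i : ℕ) :
    P (Y d * u) (T d r) i = Y (st d r i) * P u r i := by
  induction i with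
  | zero => rfl
  | succ i ih =>
    rw [P, ih, T, P, st, ← mul_assoc, XY, mul_assoc]

section embed

variable {n : ℕ} {Γ : SimpleGraph (Fin n)} {C : SimpleGraph (RA Γ)}

/-- the hypotheses -/
structure Emb (C : SimpleGraph (RA Γ)) where
  hC : ∀ g h : RA Γ, C.Adj g h ↔ (g ≠ h ∧ ∃ i : Fin n, h = g * PresentedGroup.of i ∨
    g = h * PresentedGroup.of i)
  f : S.Cay ↪g C
  conv : ∀ a b c : RA Γ, a ∈ Set.range f → b ∈ Set.range f →
            C.dist a c + C.dist c b = C.dist a b → c ∈ Set.range f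

variable (H : Emb C)

namespace Emb

/-- image of a vertex -/
def F (u : S.Grp) : RA Γ := H.f ⟨u⟩

theorem F_inj {u v : S.Grp} (h : H.F u = H.F v) : u = v :=
  congrArg Vx.g (H.f.injective h)

theorem exLab (u : S.Grp) (a : Da) : ∃ i, Lb (H.F u) (H.F (S.gn a * u)) i := by
  have h1 : S.Cay.Adj ⟨u⟩ ⟨S.gn a * u⟩ := ⟨a, rfl⟩
  have h2 : C.Adj (H.F u) (H.F (S.gn a * u)) := H.f.map_rel_iff.mpr h1
  obtain ⟨_, i, hi⟩ := (H.hC _ _).mp h2
  exact ⟨i, hi⟩

/-- the label of an edge -/
noncomputable def lab (u : S.Grp) (a : Da) : Fin n := (H.exLab u a).choose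

theorem lab_spec (u : S.Grp) (a : Da) : Lb (H.F u) (H.F (S.gn a * u)) (H.lab u a) :=
  (H.exLab u a).choose_spec

theorem par {a b a' b' : Da} (h : S.sq a' b' = some (a, b)) (u : S.Grp) :
    H.lab u a = H.lab (S.gn b * u) b' ∧ H.lab u b = H.lab (S.gn a * u) a' ∧
      Γ.Adj (H.lab u a) (H.lab u b) := by
  have e : S.gn b' * (S.gn b * u) = S.gn a' * (S.gn a * u) := by
    rw [← mul_assoc, ← mul_assoc, gn_sq h]
  have h1 := H.lab_spec u a
  have h2 := H.lab_spec (S.gn a * u) a'
  have h3 := H.lab_spec u b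
  have h4 := H.lab_spec (S.gn b * u) b'
  rw [e] at h4
  obtain ⟨k1, k2, k3⟩ := Lb.square h1 h2 h3 h4 (fun e => sq_nd2 h u (H.F_inj e))
    (fun e => sq_nd1 h u (H.F_inj e))
  exact ⟨k1, k2.symm, by rw [← k2]; exact k3⟩

/-- the labels of a horizontal path -/
noncomputable def Lx (u : S.Grp) (r : ℕ → ZMod 3) (i : ℕ) : Fin n :=
  H.lab (P u r i) (Da.x (r i) true)

theorem Lx_Y (u : S.Grp) (d : ZMod 3) (r : ℕ → ZMod 3) (i : ℕ) :
    H.Lx (Y d * u) (T d r) i = H.Lx u r i := by
  unfold Lx
  rw [P_par]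
  exact ((H.par (sqXY (r i) (st d r i)) (P u r i)).2.1).symm

/-- transformations which preserve the labels -/
def Real (φ : (ℕ → ZMod 3) → (ℕ → ZMod 3)) : Prop :=
  ∃ g : S.Grp, ∀ u r i, H.Lx (g * u) (φ r) i = H.Lx u r i

theorem real_T (d : ZMod 3) : H.Real (T d) := ⟨Y d, fun u r i => H.Lx_Y u d r i⟩

theorem real_comp {φ ψ : (ℕ → ZMod 3) → (ℕ → ZMod 3)} (h : H.Real φ) (h' : H.Real ψ) :
    H.Real (fun r => φ (ψ r)) := by
  obtain ⟨g, hg⟩ := h
  obtain ⟨g', hg'⟩ := h'
  exact ⟨g * g', fun u r i => by rw [mul_assoc, hg, hg']⟩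

theorem real_inv {φ ψ : (ℕ → ZMod 3) → (ℕ → ZMod 3)} (h : H.Real φ) (hi : ∀ r, φ (ψ r) = r) :
    H.Real ψ := by
  obtain ⟨g, hg⟩ := h
  refine ⟨g⁻¹, fun u r i => ?_⟩
  have := hg (g⁻¹ * u) (ψ r) i
  rw [hi, mul_inv_cancel_left] at this
  exact this.symm

theorem real_hh (j : ℕ) : H.Real (fun r => r + hh j) := by
  have hT := H.real_T 0
  have hTi : H.Real Ti := H.real_inv hT T_Ti
  induction j with
  | zero =>
    have h := H.real_comp (H.real_T 1) hTi
    have e : (fun r => T 1 (Ti r)) = (fun r : ℕ → ZMod 3 => r + hh 0) := by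
      funext r
      have h1 := T_add 0 1 (Ti r) 0
      rw [zero_add, add_zero, T_Ti] at h1
      rw [h1]
      congr 1
      funext i
      have : ∀ i, st 1 0 i = 1 := by
        intro i
        induction i with
        | zero => rfl
        | succ i ih => rw [st, ih]; rfl
      show (0 : ZMod 3) + st 1 0 i = 1
      rw [this, zero_add]
    rw [e] at h
    exact h
  | succ j ih =>
    have ihn : H.Real (fun r => r - hh j) :=
      H.real_inv ih (fun r => sub_add_cancel r (hh j))
    have h := H.real_comp hT (H.real_comp ih (H.real_comp hTi ihn))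
    have e : (fun r => T 0 (Ti (r - hh j) + hh j)) = (fun r : ℕ → ZMod 3 => r + hh (j + 1)) := by
      funext r
      have h1 := T_add 0 0 (Ti (r - hh j)) (hh j)
      rw [zero_add, T_Ti] at h1
      rw [h1]
      funext i
      show r i - hh j i + (hh j i + st 0 (hh j) i) = r i + st 0 (hh j) i
      ring
    rw [e] at h
    exact h

theorem exists_level (j : ℕ) : ∃ g : S.Grp, ∀ i, H.Lx g (hh j) i = H.Lx 1 0 i := by
  obtain ⟨g, hg⟩ := H.real_hh j
  refine ⟨g, fun i => ?_⟩
  have := hg 1 0 i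
  have e : (fun r : ℕ → ZMod 3 => r + hh j) 0 = hh j := zero_add _
  rwa [mul_one, e] at this

/-- two edges whose labels are adjacent span a square -/
theorem not_adj (w : S.Grp) (r : ZMod 3) (hr : r ≠ 0) :
    ¬ Γ.Adj (H.lab w (Da.t true)) (H.lab w (Da.x r true)) := by
  intro hadj
  obtain ⟨β, hβ⟩ := (H.lab_spec w (Da.x r true)).ex
  obtain ⟨γ, hγ⟩ := (H.lab_spec w (Da.t true)).ex
  set i := H.lab w (Da.x r true)
  set k := H.lab w (Da.t true)
  set x := S.gn (Da.x r true) * w with hx
  set y := S.gn (Da.t true) * w with hy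
  let c : RA Γ := H.F w * sg i β * sg k γ
  have hik : i ≠ k := fun e => Γ.loopless.irrefl k (e ▸ hadj)
  have hxy : x ≠ y := by
    intro e
    have := gn_inj (mul_right_cancel e)
    cases this
  have hc1 : Lb (H.F x) c k := by
    rw [hβ]
    exact Lb.of_sg _ _ _
  have hc2 : Lb (H.F y) c i := by
    have : c = H.F w * sg k γ * sg i β := by
      show H.F w * sg i β * sg k γ = _
      rw [mul_assoc, mul_assoc, sg_comm hadj.symm]
    rw [this, hγ]
    exact Lb.of_sg _ _ _
  have hs : ∀ (i : Fin n) (b : Bool), (sg i b : RA Γ) ≠ 1 := by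
    intro i b h
    have h1 := congrFun (congrArg es h) i
    have h2 : es (1 : RA Γ) = 0 := by unfold es; rw [map_one]; rfl
    rw [es_sg, Pi.single_eq_same, h2] at h1
    exact sn_ne b h1
  have hxc : H.F x ≠ c := by
    rw [hβ]
    intro e
    exact hs k γ (left_eq_mul.mp e)
  have hyc : H.F y ≠ c := by
    have : c = H.F w * sg k γ * sg i β := by
      show H.F w * sg i β * sg k γ = _
      rw [mul_assoc, mul_assoc, sg_comm hadj.symm]
    rw [this, hγ]
    intro e
    exact hs i β (left_eq_mul.mp e)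
  have ac1 : C.Adj (H.F x) c := (H.hC _ _).mpr ⟨hxc, k, hc1⟩
  have ac2 : C.Adj c (H.F y) := ((H.hC _ _).mpr ⟨hyc, i, hc2⟩).symm
  have d1 : C.dist (H.F x) c = 1 := SimpleGraph.dist_eq_one_iff_adj.mpr ac1
  have d2 : C.dist c (H.F y) = 1 := SimpleGraph.dist_eq_one_iff_adj.mpr ac2
  have hreach : C.Reachable (H.F x) (H.F y) := ac1.reachable.trans ac2.reachable
  have d3 : C.dist (H.F x) (H.F y) = 2 := by
    have hle : C.dist (H.F x) (H.F y) ≤ 2 := by
      have := SimpleGraph.dist_le (SimpleGraph.Walk.cons ac1 (SimpleGraph.Walk.cons ac2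
        SimpleGraph.Walk.nil))
      simpa using this
    have h0 : C.dist (H.F x) (H.F y) ≠ 0 := by
      intro h
      exact hxy (H.F_inj (hreach.dist_eq_zero_iff.mp h))
    have h1 : C.dist (H.F x) (H.F y) ≠ 1 := by
      intro h
      have h2 : C.Adj (H.F x) (H.F y) := SimpleGraph.dist_eq_one_iff_adj.mp h
      obtain ⟨a, ha⟩ : S.Cay.Adj ⟨x⟩ ⟨y⟩ := H.f.map_rel_iff.mp h2
      exact not_adj_of_common (S := S) (u := w) (a := Da.x r true) (b := Da.t true) (c := a) ha
    omega
  obtain ⟨z, hz⟩ := H.conv (H.F x) (H.F y) c ⟨_, rfl⟩ ⟨_, rfl⟩ (by rw [d1, d2, d3])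
  rw [← hz] at ac1 ac2
  obtain ⟨a1, ha1⟩ : S.Cay.Adj ⟨x⟩ z := H.f.map_rel_iff.mp ac1
  obtain ⟨b1, hb1⟩ : S.Cay.Adj ⟨y⟩ z := H.f.map_rel_iff.mp ac2.symm
  have hwz : w ≠ z.g := by
    intro e
    have e2 : c = H.F w := by
      rw [← hz, e]
      rfl
    have e3 : H.F w * (sg i β * sg k γ) = H.F w := by
      rw [← mul_assoc]; exact e2
    have e4 := mul_eq_left.mp e3
    have h2 : es (1 : RA Γ) = 0 := by unfold es; rw [map_one]; rfl
    have e5 := congrFun (congrArg es e4) i
    rw [es_mul, Pi.add_apply, es_sg, es_sg, Pi.single_eq_same, Pi.single_eq_of_ne hik, h2,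
      add_zero] at e5
    exact sn_ne β e5
  have hsq := sq_of_diamond (S := S) hx hy ha1 hb1 hwz hxy
  have : ∀ a b : Da, Da.dsq a b ≠ some (Da.x r true, Da.t true) := by
    rintro (⟨s, _ | _⟩ | ⟨s, _ | _⟩ | (_ | _)) (⟨s', _ | _⟩ | ⟨s', _ | _⟩ | (_ | _)) h <;>
      simp only [Da.dsq] at h <;> first
      | (cases h)
      | (split_ifs at h with h0; cases h; exact hr h0)
      | (split_ifs at h with h0; cases h)
  exact this _ _ hsq

theorem labels_ne (i j : ℕ) (hij : i < j) : H.Lx 1 0 i ≠ H.Lx 1 0 j := by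
  intro heq
  obtain ⟨g, hg⟩ := H.exists_level j
  obtain ⟨h0, h1⟩ := hh_spec j
  have step : ∀ i, i < j → H.lab (P g (hh j) (i + 1)) (Da.t true) =
      H.lab (P g (hh j) i) (Da.t true) ∧
      Γ.Adj (H.lab (P g (hh j) i) (Da.t true)) (H.Lx g (hh j) i) := by
    intro i hi
    have h2 := H.par sqXT (P g (hh j) i)
    rw [P, Lx, h0 i hi]
    exact ⟨h2.1.symm, h2.2.2⟩
  have hconst : ∀ k, i + k ≤ j → H.lab (P g (hh j) (i + k)) (Da.t true) =
      H.lab (P g (hh j) i) (Da.t true) := by
    intro k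
    induction k with
    | zero => intro _; rfl
    | succ k ih =>
      intro hk
      rw [← ih (by omega)]
      exact (step (i + k) (by omega)).1
  have h3 := hconst (j - i) (by omega)
  rw [Nat.add_sub_cancel' hij.le] at h3
  have h4 := (step i hij).2
  rw [← h3, hg, heq, ← hg] at h4
  exact H.not_adj _ _ h1 h4

include H in
theorem absurd' : False := by
  have hinj : Function.Injective (H.Lx 1 0) := by
    intro i j hij
    rcases lt_trichotomy i j with h | h | h
    · exact absurd hij (H.labels_ne i j h)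
    · exact h
    · exact absurd hij.symm (H.labels_ne j i h)
  exact not_injective_infinite_finite _ hinj

end Emb

end embed

end Pool.Agent.N78.CE
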