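import Pool.Agent.W387.SqMedian

/-!
A square system: an irreducible complete square complex given by a linear bireversible automaton
over the field with three elements, and an extra loop `t` commuting with one horizontal loop.
-/

set_option autoImplicit false

namespace Pool.Agent.N78.CE

open Pool.Agent.W387

/-- darts: horizontal `x r`, vertical `y d`, and the extra vertical loop `t`; the boolean is the
orientation -/
inductive Da : Type
  | x (r : ZMod 3) (s : Bool) : Da
  | y (d : ZMod 3) (s : Bool) : Da
  | t (s : Bool) : Da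
  deriving DecidableEq

namespace Da

instance : Finite Da := by
  have : Function.Surjective (fun p : (ZMod 3 × Bool) ⊕ (ZMod 3 × Bool) ⊕ Bool =>
      (match p with
        | Sum.inl (r, s) => Da.x r s
        | Sum.inr (Sum.inl (r, s)) => Da.y r s
        | Sum.inr (Sum.inr s) => Da.t s : Da)) := by
    rintro (⟨r, s⟩ | ⟨r, s⟩ | s)
    · exact ⟨Sum.inl (r, s), rfl⟩
    · exact ⟨Sum.inr (Sum.inl (r, s)), rfl⟩
    · exact ⟨Sum.inr (Sum.inr s), rfl⟩
  exact Finite.of_surjective _ this

/-- inverse dart -/
def dinv : Da → Da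
  | x r s => x r (!s)
  | y d s => y d (!s)
  | t s => t (!s)

/-- squares -/
def dsq : Da → Da → Option (Da × Da)
  | x s true, y e true => some (y (-s-e) true, x (e-s) true)
  | y e true, x s true => some (x (e-s) true, y (-s-e) true)
  | x s true, y e false => some (y (s+e) false, x (e-s) true)
  | y e false, x s true => some (x (e-s) true, y (s+e) false)
  | x s false, y e true => some (y (-s-e) true, x (s-e) false)
  | y e true, x s false => some (x (s-e) false, y (-s-e) true)
  | x s false, y e false => some (y (e-s) false, x (s+e) false)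
  | y e false, x s false => some (x (s+e) false, y (e-s) false)
  | x s a, t b => if s = 0 then some (t b, x s a) else none
  | t b, x s a => if s = 0 then some (x s a, t b) else none
  | _, _ => none

end Da

/-- the square system -/
def S : SqSys Da where
  inv := Da.dinv
  inv_inv := by
    rintro (⟨r, s⟩ | ⟨r, s⟩ | s) <;> simp [Da.dinv]
  sq := Da.dsq
  symm := by
    rintro (⟨r, _ | _⟩ | ⟨r, _ | _⟩ | (_ | _)) (⟨r', _ | _⟩ | ⟨r', _ | _⟩ | (_ | _)) p q h <;>
      simp only [Da.dsq] at h ⊢ <;> first
      | (cases h; rfl)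
      | (split_ifs at h ⊢ with h0; cases h; rfl)
      | (cases h)
  rot := by
    rintro (⟨r, _ | _⟩ | ⟨r, _ | _⟩ | (_ | _)) (⟨r', _ | _⟩ | ⟨r', _ | _⟩ | (_ | _)) p q h <;>
      simp only [Da.dsq] at h <;> first
      | (cases h; revert r r'; decide)
      | (split_ifs at h with h0; cases h; subst h0; simp [Da.dsq, Da.dinv])
      | (cases h)
  irrefl := by
    rintro (⟨r, _ | _⟩ | ⟨r, _ | _⟩ | (_ | _)) <;> rfl
  cube := by
    rintro (⟨r, _ | _⟩ | ⟨r, _ | _⟩ | (_ | _)) (⟨r', _ | _⟩ | ⟨r', _ | _⟩ | (_ | _))
      (⟨r'', _ | _⟩ | ⟨r'', _ | _⟩ | (_ | _)) b1 a1 c1 b2 c2 a2 h1 h2 h3 <;>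
      simp only [Da.dsq, reduceCtorEq] at h1 h2 h3

end Pool.Agent.N78.CE
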